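import Pool.Agent.R386.HY.Rat
import Pool.Agent.R386.HY.Cube

/-!
# Rationality of central values: reduction to special fields

Let `A` be an elliptic curve over a number field `K`.  Suppose that for all the extensions `F` of `K` of
degree at most `6` such that the discriminant of `A` is a cube in `F` or `A` has a subgroup of order
three rational over `F` the function `L(s, A/F)` continues to `s = 1`, the value `L(1, A/F)` is not zero
and `L(1, A/F) / Ω(A/F)` is rational.  Then `L(s, A/K)` continues to `s = 1`, the value is not zero and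
`L(1, A/K) / Ω(A/K)` is rational.

The proof.  The trivial character of the group of permutations of the four subgroups of order three is
`1 = [4 points] + [3 double transpositions] - [6 pairs]`, and the last two sets belong to extensions
that contain a cube root of the discriminant.  So the trivial character of `Gal(L/K)`, for the splitting
field `L` of the third division polynomial, is an integral combination of the permutation characters of
the special fields, with the sum of multiplicities exactly one.  We show that modulo rational numbers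
the central values `L(1, A/F)` (bad Euler factors are rational at `s = 1`), the products of the periods
over the archimedean places, and the square roots of the discriminants (the sign of the permutation
character) satisfy all the relations between permutation characters.
-/

set_option autoImplicit false

namespace Pool.Agent.Results.MP_90f827_nt.SpecialFieldsReduction

open NumberField IsDedekindDomain

section defs
variable {F : Type} [Field F] [NumberField F]

/-- `V v` is, for every prime `v`, an integral model of `A` with discriminant minimal at `v`. -/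
def MinimalModels (A : WeierstrassCurve F)
    (V : HeightOneSpectrum (𝓞 F) → WeierstrassCurve (𝓞 F)) : Prop :=
  ∀ v : HeightOneSpectrum (𝓞 F),
    (∃ C : WeierstrassCurve.VariableChange F, C • A = (V v).map (algebraMap (𝓞 F) F)) ∧
    ∀ W : WeierstrassCurve (𝓞 F),
      (∃ C : WeierstrassCurve.VariableChange F, C • A = W.map (algebraMap (𝓞 F) F)) →
        ∀ n : ℕ, (V v).Δ ∈ v.asIdeal ^ n → W.Δ ∈ v.asIdeal ^ n

open Classical in
/-- The Euler product of `L(s, A/F)` over all primes `v` of `F`, computed from the reductions of the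
models `V v`: `a_v` is `q_v` minus the number of affine points of the reduction, at all primes. -/
noncomputable def LSeries (V : HeightOneSpectrum (𝓞 F) → WeierstrassCurve (𝓞 F)) (s : ℂ) : ℂ :=
  ∏' v : HeightOneSpectrum (𝓞 F),
    (1 - ((Ideal.absNorm v.asIdeal : ℂ)
          - (Nat.card {xy : (𝓞 F ⧸ v.asIdeal) × (𝓞 F ⧸ v.asIdeal) //
              ((V v).map (Ideal.Quotient.mk v.asIdeal)).toAffine.Equation xy.1 xy.2} : ℂ))
          * (Ideal.absNorm v.asIdeal : ℂ) ^ (-s)
      + (if (V v).Δ ∈ v.asIdeal then 0 else (Ideal.absNorm v.asIdeal : ℂ))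
          * (Ideal.absNorm v.asIdeal : ℂ) ^ (-2 * s))⁻¹

/-- `Λ` is a meromorphic continuation of `L(s, A/F)` to the set `U` of complex numbers which is
analytic at `s = 1`. -/
def IsContinuation (A : WeierstrassCurve F) (U : Set ℂ) (Λ : ℂ → ℂ) : Prop :=
  MeromorphicOn Λ U ∧ AnalyticAt ℂ Λ 1 ∧
    ∃ V : HeightOneSpectrum (𝓞 F) → WeierstrassCurve (𝓞 F), MinimalModels A V ∧
      ∀ s : ℂ, 3 / 2 < s.re → Λ s = LSeries V s

/-- `P` is a local period of `A` at the archimedean place `w`, represented by the embedding `φ`.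
`L` is the lattice (with a basis `ω₁, ω₂`) such that `A(ℂ) = ℂ / L` and the differential
`dx / (2 y + a₁ x + a₃)` is `dz`, that is `x + b₂ / 12 = ℘(z)`, `2 y + a₁ x + a₃ = ℘'(z)`, and so
`g₂ = c₄ / 12`, `g₃ = c₆ / 216`.  If `w` is real then `P` is a nonzero real element of `L`; if `w` is
complex then `P` is the imaginary part of `ω₁` times the conjugate of `ω₂`. -/
def IsLocalPeriod (A : WeierstrassCurve F) (w : InfinitePlace F) (P : ℝ) : Prop :=
  ∃ (φ : F →+* ℂ) (L : PeriodPair), InfinitePlace.mk φ = w ∧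
    12 * L.g₂ = φ A.c₄ ∧ 216 * L.g₃ = φ A.c₆ ∧
    ((w.IsReal ∧ P ≠ 0 ∧ (P : ℂ) ∈ L.lattice) ∨
      (w.IsComplex ∧ P = (L.ω₁ * (starRingEnd ℂ) L.ω₂).im))

/-- `Ω` is a value of `Ω(A) = |d_F| ^ (1/2) ∏ P_w` for a choice of the embeddings and of the bases. -/
def IsPeriod (A : WeierstrassCurve F) (Ω : ℝ) : Prop :=
  ∃ P : InfinitePlace F → ℝ, (∀ w, IsLocalPeriod A w (P w)) ∧
    Ω = √|(discr F : ℝ)| * ∏ w, P w

/-- The assertion of the problem for `A/F`, with `L(1, A) ≠ 0`: the function `L(s, A/F)` has a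
continuation to `U`, and for all continuations the value at `s = 1` is not zero and it is a rational
multiple of `Ω(A)`. -/
def RationalCentralValue (A : WeierstrassCurve F) (U : Set ℂ) : Prop :=
  (∃ Λ, IsContinuation A U Λ) ∧
    ∀ Λ, IsContinuation A U Λ → Λ 1 ≠ 0 ∧ ∀ Ω, IsPeriod A Ω → ∃ q : ℚ, Λ 1 = q * Ω

/-- The discriminant is a cube in `F`. -/
def CubeDiscriminant (A : WeierstrassCurve F) : Prop := ∃ z : F, z ^ 3 = A.Δ

/-- `A` has a subgroup of order three rational over `F`: the third division polynomial, whose roots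
are the `x`-coordinates of the points of order three, has a root in `F`. -/
def RationalThreeSubgroup (A : WeierstrassCurve F) : Prop :=
  ∃ x : F, 3 * x ^ 4 + A.b₂ * x ^ 3 + 3 * A.b₄ * x ^ 2 + 3 * A.b₆ * x + A.b₈ = 0

end defs

/-- `U` is a connected set that contains the half-plane `Re s > 3/2` and the point `s = 1`. -/
def Region (U : Set ℂ) : Prop :=
  IsPreconnected U ∧ (∀ s : ℂ, 3 / 2 < s.re → s ∈ U) ∧ (1 : ℂ) ∈ U

section Aux

open Pool.Agent.H341R2.EC Pool.Agent.R433.MD Pool.Agent.R386.HY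
open Pool.Agent.H921R2.TatePole (nm two_le_nm)

theorem lseries_eq {F : Type} [Field F] [NumberField F]
    (V : HeightOneSpectrum (𝓞 F) → WeierstrassCurve (𝓞 F)) (s : ℂ) : LSeries V s = LL V s := by
  unfold LSeries LL
  refine tprod_congr fun v => ?_
  congr 1
  unfold lf trc dlt
  have h0 : ((nm v : ℕ) : ℂ) ≠ 0 := by
    have := two_le_nm v
    exact_mod_cast (by omega : nm v ≠ 0)
  have e1 : Nat.card {xy : (𝓞 F ⧸ v.asIdeal) × (𝓞 F ⧸ v.asIdeal) //
      ((V v).map (Ideal.Quotient.mk v.asIdeal)).toAffine.Equation xy.1 xy.2} =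
      aff (red v (V v)) := by
    unfold aff red
    refine Nat.card_congr (Equiv.subtypeEquivRight fun xy => ?_)
    rw [WeierstrassCurve.Affine.equation_iff]
  have e2 : ((nm v : ℕ) : ℂ) ^ (1 - 2 * s) = ((nm v : ℕ) : ℂ) * ((nm v : ℕ) : ℂ) ^ (-2 * s) := by
    rw [sub_eq_add_neg, Complex.cpow_add _ _ h0, Complex.cpow_one]
    congr 2
    ring
  have e3 : (Ideal.absNorm v.asIdeal : ℂ) = ((nm v : ℕ) : ℂ) := rfl
  rw [e1, e2, e3]
  push_cast
  split_ifs with h
  · ring
  · ring

theorem im_ne_zero (L : PeriodPair) : (L.ω₁ * (starRingEnd ℂ) L.ω₂).im ≠ 0 := by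
  intro h
  have h1 := LinearIndependent.pair_iff.1 L.indep
  have h2 := h1 (Complex.normSq L.ω₂) (-(L.ω₁ * (starRingEnd ℂ) L.ω₂).re) (by
    have h3 : ((L.ω₁ * (starRingEnd ℂ) L.ω₂).re : ℂ) = L.ω₁ * (starRingEnd ℂ) L.ω₂ := by
      apply Complex.ext
      · simp
      · rw [h, Complex.ofReal_im]
    rw [Complex.real_smul, Complex.real_smul, Complex.ofReal_neg, h3, Complex.normSq_eq_conj_mul_self]
    ring)
  have h4 : L.ω₂ = 0 := Complex.normSq_eq_zero.1 h2.1
  have h5 := h1 0 1 (by rw [h4]; simp)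
  exact one_ne_zero h5.2

theorem exists_ext_emb {K F : Type} [Field K] [NumberField K] [Field F] [NumberField F]
    [Algebra K F] (w : InfinitePlace F) (φ : K →+* ℂ)
    (h : InfinitePlace.mk φ = w.comap (algebraMap K F)) :
    ∃ ψ : F →+* ℂ, InfinitePlace.mk ψ = w ∧ ψ.comp (algebraMap K F) = φ := by
  have h1 : InfinitePlace.mk (w.embedding.comp (algebraMap K F)) = InfinitePlace.mk φ := by
    rw [h]
    conv_rhs => rw [← InfinitePlace.mk_embedding w]
    rw [InfinitePlace.comap_mk]
  rcases InfinitePlace.mk_eq_iff.1 h1 with h2 | h2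
  · exact ⟨w.embedding, InfinitePlace.mk_embedding w, h2⟩
  · refine ⟨ComplexEmbedding.conjugate w.embedding, ?_, ?_⟩
    · rw [InfinitePlace.mk_conjugate_eq, InfinitePlace.mk_embedding]
    · rw [← h2]
      rfl

/-- periods over extensions -/
theorem period_ext {K : Type} [Field K] [NumberField K] {A : WeierstrassCurve K}
    {P : InfinitePlace K → ℝ} (hP : ∀ v, IsLocalPeriod A v (P v)) :
    ∃ c : InfinitePlace K → ℝ, (∀ v, P v ≠ 0) ∧ (∀ v, c v ≠ 0) ∧
      (∀ v, v.IsComplex → P v = c v) ∧
      ∀ (F : Type) [Field F] [NumberField F] [Algebra K F],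
        IsPeriod (A.map (algebraMap K F)) (om P c F) := by
  choose φ L hφ h2 h3 hPv using hP
  refine ⟨fun v => ((L v).ω₁ * (starRingEnd ℂ) (L v).ω₂).im, fun v => ?_,
    fun v => im_ne_zero (L v), fun v hv => ?_, fun F _ _ _ => ⟨PF P _ F, fun w => ?_, rfl⟩⟩
  · rcases hPv v with h | h
    · exact h.2.1
    · rw [h.2]
      exact im_ne_zero (L v)
  · rcases hPv v with h | h
    · exact absurd h.1 (InfinitePlace.not_isReal_iff_isComplex.2 hv)
    · exact h.2
  · obtain ⟨ψ, hψ, hψφ⟩ := exists_ext_emb (K := K) w (φ (w.comap (algebraMap K F))) (hφ _)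
    refine ⟨ψ, L (w.comap (algebraMap K F)), hψ, ?_, ?_, ?_⟩
    · rw [h2, WeierstrassCurve.map_c₄, ← hψφ]
      rfl
    · rw [h3, WeierstrassCurve.map_c₆, ← hψφ]
      rfl
    · unfold PF
      by_cases hw : w.IsReal
      · rw [if_pos hw]
        left
        have hv : (w.comap (algebraMap K F)).IsReal := by
          rw [← hφ (w.comap (algebraMap K F)), InfinitePlace.isReal_mk_iff,
            ComplexEmbedding.isReal_iff]
          rw [← hψ, InfinitePlace.isReal_mk_iff, ComplexEmbedding.isReal_iff] at hw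
          rw [← hψφ]
          ext x
          exact RingHom.congr_fun hw (algebraMap K F x)
        rcases hPv (w.comap (algebraMap K F)) with h | h
        · exact ⟨hw, h.2⟩
        · exact absurd hv (InfinitePlace.not_isReal_iff_isComplex.2 h.1)
      · rw [if_neg hw]
        exact Or.inr ⟨InfinitePlace.not_isReal_iff_isComplex.1 hw, rfl⟩

end Aux

open Pool.Agent.R386.HY Pool.Agent.R433.MD Pool.Agent.H341R2.EC in
/-- relations -/
theorem of_rel {K L : Type} [Field K] [NumberField K] [Field L] [NumberField L] [Algebra K L]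
    [IsGalois K L] {A : WeierstrassCurve K} (hA : A.IsElliptic) {U : Set ℂ} (hU : Region U)
    (S : Finset (IntermediateField K L)) (n : IntermediateField K L → ℤ)
    (h : ∀ g : Gal(L/K), ∑ F ∈ S, n F * fx F.fixingSubgroup g = 1)
    (hS : ∀ F ∈ S, RationalCentralValue (A.map (algebraMap K F)) U) :
    RationalCentralValue A U := by
  classical
  have hS1 : ∀ F : IntermediateField K L, ∃ Λ : ℂ → ℂ, F ∈ S →
      IsContinuation (A.map (algebraMap K F)) U Λ := by
    intro F
    by_cases hF : F ∈ S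
    · obtain ⟨Λ, hΛ⟩ := (hS F hF).1
      exact ⟨Λ, fun _ => hΛ⟩
    · exact ⟨0, fun h => absurd h hF⟩
  choose Λ hΛ using hS1
  have hΛ' : ∀ F ∈ S, MeromorphicOn (Λ F) U ∧ AnalyticAt ℂ (Λ F) 1 ∧ Λ F 1 ≠ 0 ∧
      ∃ V : HeightOneSpectrum (𝓞 F) → WeierstrassCurve (𝓞 F),
        (∀ w, IsMinAt (A.map (algebraMap K F)) w (V w)) ∧
        ∀ s : ℂ, 3 / 2 < s.re → Λ F s = LL V s := by
    intro F hF
    obtain ⟨h1, h2, V, hV, hVs⟩ := hΛ F hF
    exact ⟨h1, h2, ((hS F hF).2 _ (hΛ F hF)).1, V, hV, fun s hs => by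
      rw [hVs s hs, lseries_eq]⟩
  have hprod : ∏ F ∈ S, Λ F 1 ^ n F ≠ 0 :=
    Finset.prod_ne_zero_iff.2 fun F hF => zpow_ne_zero _ (hΛ' F hF).2.2.1
  constructor
  · obtain ⟨V0, hV0⟩ := exists_minimal A hA
    obtain ⟨Λ0, q, h1, h2, h3, -, -⟩ := val_rel hA S n h U Λ hΛ' V0 hV0
    exact ⟨Λ0, h1, h2, V0, hV0, fun s hs => by rw [h3 s hs, lseries_eq]⟩
  · rintro Λ1 ⟨hm, ha, V0, hV0, hVs⟩
    obtain ⟨Λ0, q, h1, h2, h3, hq0, h4⟩ := val_rel hA S n h U Λ hΛ' V0 hV0
    have h5 : Λ1 1 = Λ0 1 := val_eq hU.1 hU.2.1 hU.2.2 hm h1 ha h2 fun s hs => by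
      rw [hVs s hs, lseries_eq, h3 s hs]
    have hq0' : (q : ℂ) ≠ 0 := by exact_mod_cast hq0
    rw [h5, h4]
    refine ⟨mul_ne_zero hq0' hprod, ?_⟩
    rintro Ω ⟨P, hP, rfl⟩
    obtain ⟨c, hP0, hc0, hPc, hper⟩ := period_ext hP
    obtain ⟨ρ, hρ⟩ := om_rel S n h hP0 hc0 hPc
    have hr : ∀ F : IntermediateField K L, ∃ r : ℚ, F ∈ S → Λ F 1 = r * (om P c F : ℝ) := by
      intro F
      by_cases hF : F ∈ S
      · obtain ⟨r, hr⟩ := ((hS F hF).2 _ (hΛ F hF)).2 _ (hper F)
        exact ⟨r, fun _ => hr⟩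
      · exact ⟨0, fun h => absurd h hF⟩
    choose r hr using hr
    refine ⟨q * (∏ F ∈ S, r F ^ n F) * ρ, ?_⟩
    have h6 : ∏ F ∈ S, Λ F 1 ^ n F = (∏ F ∈ S, (r F : ℂ) ^ n F) *
        ((∏ F ∈ S, om P c F ^ n F : ℝ) : ℂ) := by
      push_cast
      rw [← Finset.prod_mul_distrib]
      refine Finset.prod_congr rfl fun F hF => ?_
      rw [hr F hF, mul_zpow]
    rw [h6, hρ]
    push_cast
    ring

/-- **Main result.** -/
theorem result (K : Type) [Field K] [NumberField K] (A : WeierstrassCurve K) (hA : A.IsElliptic)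
    (U : Set ℂ) (hU : Region U)
    (h : ∀ (F : Type) [Field F] [NumberField F] [Algebra K F], Module.finrank K F ≤ 6 →
      CubeDiscriminant (A.map (algebraMap K F)) ∨
        RationalThreeSubgroup (A.map (algebraMap K F)) →
      RationalCentralValue (A.map (algebraMap K F)) U) :
    RationalCentralValue A U := by
  obtain ⟨L, _, _, _, _, S, n, hS, hsum⟩ := Pool.Agent.R386.HY.cube_rel A hA
  exact of_rel hA hU S n hsum fun F hF => h F (hS F hF).2 (hS F hF).1

end Pool.Agent.Results.MP_90f827_nt.SpecialFieldsReduction
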