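import Pool.Agent.R386.HY.RatM
import Pool.Agent.R386.HY.Par
import Pool.Agent.Results.MP_90f827_nt.SpecialFieldsReduction

/-!
# Central values of an elliptic curve and the subfields of a Galois extension

Let `A` be an elliptic curve over a number field `K` and `L/K` a finite Galois extension.

(1) If `L(1, A/F)` is not zero and `L(1, A/F) / Ω(A/F)` is rational for the intermediate fields `F` such
that `L/F` is cyclic, then `L(1, A/K)` is not zero and a power of `L(1, A/K) / Ω(A/K)` is rational; so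
this quotient is algebraic.

(2) If this holds for all the intermediate fields `F` such that `Gal(L/F)` is cyclic or
`p`-hyperelementary with `p` in a set `P` of prime numbers, then the exponent in (1) has no prime factor
in `P`.  In particular if `P` is the set of all prime numbers then `L(1, A/K) / Ω(A/K)` is rational.

The exponent depends only on `Gal(L/K)` and `P`, not on `A`.
-/

set_option autoImplicit false

namespace Pool.Agent.Results.MP_90f827_nt.HyperelementaryFields

open NumberField IsDedekindDomain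
open Pool.Agent.Results.MP_90f827_nt.SpecialFieldsReduction

/-- `H` is `p`-hyperelementary: it has a cyclic normal subgroup `C` of order prime to `p` such that
`H / C` is a `p`-group. -/
def Hyperelementary {G : Type} [Group G] (p : ℕ) (H : Subgroup G) : Prop :=
  ∃ C : Subgroup G, C ≤ H ∧ IsCyclic C ∧ (Nat.card C).Coprime p ∧
    (∀ h ∈ H, ∀ c ∈ C, h * c * h⁻¹ ∈ C) ∧ ∀ h ∈ H, ∃ k : ℕ, h ^ p ^ k ∈ C

/-- `L(1, A) ≠ 0` and `(L(1, A) / Ω(A)) ^ m` is rational, for all continuations of `L(s, A/F)` to `U`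
which are analytic at `s = 1` and all choices of the periods. -/
def RationalPower {F : Type} [Field F] [NumberField F] (A : WeierstrassCurve F) (U : Set ℂ) (m : ℕ) :
    Prop :=
  ∀ Λ, IsContinuation A U Λ → Λ 1 ≠ 0 ∧ ∀ Ω, IsPeriod A Ω → ∃ q : ℚ, Λ 1 ^ m = q * Ω ^ m

open Pool.Agent.R386.HY Pool.Agent.R433.MD Pool.Agent.H341R2.EC in
/-- relations -/
theorem of_relM {K L : Type} [Field K] [NumberField K] [Field L] [NumberField L] [Algebra K L]
    [IsGalois K L] {A : WeierstrassCurve K} (hA : A.IsElliptic) {U : Set ℂ} (hU : Region U)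
    (S : Finset (IntermediateField K L)) (n : IntermediateField K L → ℤ) (m : ℕ) (hm : m ≠ 0)
    (h : ∀ g : Gal(L/K), ∑ F ∈ S, n F * fx F.fixingSubgroup g = m)
    (hS : ∀ F ∈ S, RationalCentralValue (A.map (algebraMap K F)) U) :
    RationalPower A U m := by
  classical
  have hS1 : ∀ F : IntermediateField K L, ∃ Λ : ℂ → ℂ, F ∈ S →
      IsContinuation (A.map (algebraMap K F)) U Λ := by
    intro F
    by_cases hF : F ∈ S
    · obtain ⟨Λ, hΛ⟩ := (hS F hF).1
      exact ⟨Λ, fun _ => hΛ⟩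
    · exact ⟨0, fun h => absurd h hF⟩
  choose Λ hΛ using hS1
  have hΛ' : ∀ F ∈ S, MeromorphicOn (Λ F) U ∧ AnalyticAt ℂ (Λ F) 1 ∧ Λ F 1 ≠ 0 ∧
      ∃ V : HeightOneSpectrum (𝓞 F) → WeierstrassCurve (𝓞 F),
        (∀ w, IsMinAt (A.map (algebraMap K F)) w (V w)) ∧
        ∀ s : ℂ, 3 / 2 < s.re → Λ F s = LL V s := by
    intro F hF
    obtain ⟨h1, h2, V, hV, hVs⟩ := hΛ F hF
    exact ⟨h1, h2, ((hS F hF).2 _ (hΛ F hF)).1, V, hV, fun s hs => by
      rw [hVs s hs, lseries_eq]⟩
  have hprod : ∏ F ∈ S, Λ F 1 ^ n F ≠ 0 :=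
    Finset.prod_ne_zero_iff.2 fun F hF => zpow_ne_zero _ (hΛ' F hF).2.2.1
  rintro Λ1 ⟨hmer, ha, V0, hV0, hVs⟩
  obtain ⟨Λ0, q, h1, h2, h3, hq0, h4⟩ := val_relM hA S n m h U Λ hΛ' V0 hV0
  have h5 : Λ1 1 ^ m = Λ0 1 := val_eq hU.1 hU.2.1 hU.2.2 (f := fun s => Λ1 s ^ m)
    (hmer.fun_pow m) h1 (ha.fun_pow m) h2 fun s hs => by
      rw [hVs s hs, lseries_eq, h3 s hs]
  have hq0' : (q : ℂ) ≠ 0 := by exact_mod_cast hq0
  refine ⟨fun h0 => ?_, ?_⟩
  · rw [h0, zero_pow hm, h4] at h5
    exact mul_ne_zero hq0' hprod h5.symm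
  rintro Ω ⟨P, hP, rfl⟩
  obtain ⟨c, hP0, hc0, hPc, hper⟩ := period_ext hP
  obtain ⟨ρ, hρ⟩ := om_relM S n m h hP0 hc0 hPc
  have hr : ∀ F : IntermediateField K L, ∃ r : ℚ, F ∈ S → Λ F 1 = r * (om P c F : ℝ) := by
    intro F
    by_cases hF : F ∈ S
    · obtain ⟨r, hr⟩ := ((hS F hF).2 _ (hΛ F hF)).2 _ (hper F)
      exact ⟨r, fun _ => hr⟩
    · exact ⟨0, fun h => absurd h hF⟩
  choose r hr using hr
  refine ⟨q * (∏ F ∈ S, r F ^ n F) * ρ, ?_⟩
  have h6 : ∏ F ∈ S, Λ F 1 ^ n F = (∏ F ∈ S, (r F : ℂ) ^ n F) *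
      ((∏ F ∈ S, om P c F ^ n F : ℝ) : ℂ) := by
    push_cast
    rw [← Finset.prod_mul_distrib]
    refine Finset.prod_congr rfl fun F hF => ?_
    rw [hr F hF, mul_zpow]
  rw [h5, h4, h6, hρ]
  push_cast
  ring

open Pool.Agent.R433.MD in
/-- induction theorem -/
theorem exists_rel (K L : Type) [Field K] [NumberField K] [Field L] [NumberField L] [Algebra K L]
    [IsGalois K L] (P : Set ℕ) :
    ∃ (m : ℕ) (S : Finset (IntermediateField K L)) (n : IntermediateField K L → ℤ), m ≠ 0 ∧
      (∀ p ∈ P, p.Prime → ¬ p ∣ m) ∧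
      (∀ F ∈ S, IsCyclic F.fixingSubgroup ∨ ∃ p ∈ P, p.Prime ∧ IsHyper p F.fixingSubgroup) ∧
      ∀ g : Gal(L/K), ∑ F ∈ S, n F * fx F.fixingSubgroup g = m := by
  obtain ⟨m, S, n, hm0, hmP, hS, hsum⟩ := gal_unit
    {F : IntermediateField K L | IsCyclic F.fixingSubgroup ∨
      ∃ p ∈ P, p.Prime ∧ IsHyper p F.fixingSubgroup}
    (by
      intro F hF F' _
      have hle : (F ⊔ F').fixingSubgroup ≤ F.fixingSubgroup := by
        rw [IntermediateField.fixingSubgroup_sup]
        exact inf_le_left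
      rcases hF with h | ⟨p, hp, hpp, h⟩
      · exact Or.inl (isCyclic_of_injective (Subgroup.inclusion hle)
          (Subgroup.inclusion_injective hle))
      · exact Or.inr ⟨p, hp, hpp, h.le hle⟩)
    (by
      intro F hF σ
      have e : (F.map (σ : L →ₐ[K] L)).fixingSubgroup =
          F.fixingSubgroup.map (MulAut.conj σ).toMonoidHom := IsGalois.map_fixingSubgroup F σ
      rw [Set.mem_ofPred_eq, e]
      rcases hF with h | ⟨p, hp, hpp, h⟩
      · let e' := F.fixingSubgroup.equivMapOfInjective (MulAut.conj σ).toMonoidHom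
          (MulAut.conj σ).injective
        exact Or.inl (isCyclic_of_surjective e'.toMonoidHom e'.surjective)
      · exact Or.inr ⟨p, hp, hpp, h.conj σ⟩) P
    (by
      intro g
      have e : (IntermediateField.fixedField (Subgroup.zpowers g)).fixingSubgroup =
        Subgroup.zpowers g := IntermediateField.fixingSubgroup_fixedField _
      refine ⟨IntermediateField.fixedField (Subgroup.zpowers g), Or.inl ?_, ?_⟩
      · rw [e]
        infer_instance
      · have h1 := fx_eq_emb (IntermediateField.fixedField (Subgroup.zpowers g)) g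
        intro h
        rw [h, e, fx, Nat.cast_zero, Nat.cast_eq_zero, Nat.card_eq_zero] at h1
        rcases h1 with h1 | h1
        · refine h1.false ⟨((1 : Gal(L/K)) : Gal(L/K) ⧸ Subgroup.zpowers g), ?_⟩
          change ((g * 1 : Gal(L/K)) : Gal(L/K) ⧸ Subgroup.zpowers g) = _
          rw [QuotientGroup.eq, mul_one, mul_one]
          exact Subgroup.inv_mem _ (Subgroup.mem_zpowers g)
        · exact h1.not_finite inferInstance)
    (by
      intro g p hp hpp
      obtain ⟨H, hH, h⟩ := hyper_count hpp g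
      have e : (IntermediateField.fixedField H).fixingSubgroup = H :=
        IntermediateField.fixingSubgroup_fixedField _
      refine ⟨IntermediateField.fixedField H, Or.inr ⟨p, hp, hpp, ?_⟩, ?_⟩
      · rw [e]
        exact hH
      · have h1 := fx_eq_emb (IntermediateField.fixedField H) g
        rw [e] at h1
        rw [h1] at h
        exact_mod_cast h)
  exact ⟨m, S, n, hm0, hmP, hS, hsum⟩

/-- **Main result.** -/
theorem result (K L : Type) [Field K] [NumberField K] [Field L] [NumberField L] [Algebra K L]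
    [IsGalois K L] (P : Set ℕ) :
    ∃ m : ℕ, m ≠ 0 ∧ (∀ p ∈ P, p.Prime → ¬ p ∣ m) ∧
      ∀ A : WeierstrassCurve K, A.IsElliptic → ∀ U : Set ℂ, Region U →
        (∀ F : IntermediateField K L,
          (IsCyclic F.fixingSubgroup ∨ ∃ p ∈ P, p.Prime ∧ Hyperelementary p F.fixingSubgroup) →
            RationalCentralValue (A.map (algebraMap K F)) U) →
        RationalPower A U m ∧ ((∀ p : ℕ, p.Prime → p ∈ P) → RationalCentralValue A U) := by
  obtain ⟨m, S, n, hm0, hmP, hS, hsum⟩ := exists_rel K L P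
  refine ⟨m, hm0, hmP, fun A hA U hU h => ?_⟩
  have h1 : ∀ F ∈ S, RationalCentralValue (A.map (algebraMap K F)) U := fun F hF => h F (hS F hF)
  refine ⟨of_relM hA hU S n m hm0 hsum h1, fun hP => ?_⟩
  have hm1 : m = 1 := by
    by_contra hm
    obtain ⟨p, hp, hpm⟩ := Nat.exists_prime_and_dvd hm
    exact hmP p (hP p hp) hp hpm
  refine of_rel hA hU S n (fun g => ?_) h1
  rw [hsum g, hm1]
  rfl

end Pool.Agent.Results.MP_90f827_nt.HyperelementaryFields
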