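import Pool.Agent.R386.HY.FamV
import Pool.Agent.R386.TC.Rel
import Pool.Agent.Results.MP_90f827_nt.HyperelementaryFields

/-!
# Central values and totally complex fields

Let `F` and `F_i` be finitely many finite extensions of a number field `K`, and `N ≥ 1`, `n_i` integers
such that `N r(F) = ∑ n_i r(F_i)`, where `r` is the number of real places above `v`, for every real place
`v` of `K`.  (For instance `K = ℚ`, `F` any number field, `F_1 = ℚ`, `N = 1` and `n_1` the number of real
places of `F`.)  There are finitely many totally complex extensions `M` of `K` and an integer `m ≥ 1`,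
independent of the elliptic curve, such that for every elliptic curve `A` over `K`: if `L(1, A)` is not
zero and `L(1, A) / Ω(A)` is rational over the fields `F_i` and over the fields `M`, then `L(1, A)` is not
zero over `F` and the `m`-th power of `L(1, A) / Ω(A)` over `F` is rational.

The proof.  The corresponding combination of the permutation characters vanishes at all complex
conjugations.  The closure of the group generated by an element which is not a complex conjugation
contains no complex conjugation, so up to a positive integer the difference is an integral combination of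
permutation characters of totally complex fields (`Pool.Agent.R386.TC`).  Modulo rational numbers the
central values, the products of the periods over the archimedean places and the square roots of the
discriminants satisfy all the relations between permutation characters.
-/

set_option autoImplicit false

namespace Pool.Agent.Results.MP_90f827_nt.TotallyComplexFields

open NumberField IsDedekindDomain
open Pool.Agent.Results.MP_90f827_nt.SpecialFieldsReduction

/-- The number of real places of `F` above the real place `φ` of `K`. -/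
noncomputable def realPlaces {K : Type} [Field K] (F : Type) [Field F] [Algebra K F]
    (φ : K →+* ℝ) : ℕ :=
  Nat.card {τ : F →+* ℝ // τ.comp (algebraMap K F) = φ}

open Pool.Agent.R386.HY Pool.Agent.R433.MD Pool.Agent.H341R2.EC Pool.Agent.R386.TC in
/-- **Main result.** -/
theorem result (K F : Type) [Field K] [NumberField K] [Field F] [NumberField F] [Algebra K F]
    (ι : Type) [Fintype ι] (F' : ι → Type) [∀ i, Field (F' i)] [∀ i, NumberField (F' i)]
    [∀ i, Algebra K (F' i)] (N : ℕ) (hN : N ≠ 0) (n : ι → ℤ)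
    (hn : ∀ φ : K →+* ℝ, (N : ℤ) * realPlaces F φ = ∑ i, n i * realPlaces (F' i) φ) :
    ∃ (L : Type) (_ : Field L) (_ : NumberField L) (_ : Algebra K L)
      (S : Finset (IntermediateField K L)) (m : ℕ), m ≠ 0 ∧ (∀ M ∈ S, IsEmpty (M →+* ℝ)) ∧
      ∀ A : WeierstrassCurve K, A.IsElliptic → ∀ U : Set ℂ, Region U →
        (∀ i, RationalCentralValue (A.map (algebraMap K (F' i))) U) →
        (∀ M ∈ S, RationalCentralValue (A.map (algebraMap K M)) U) →
        ∀ Λ, IsContinuation (A.map (algebraMap K F)) U Λ →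
          Λ 1 ≠ 0 ∧ ∀ P : InfinitePlace K → ℝ, (∀ v, IsLocalPeriod A v (P v)) →
            ∃ Ω, IsPeriod (A.map (algebraMap K F)) Ω ∧ ∃ q : ℚ, Λ 1 ^ m = q * Ω ^ m := by
  classical
  -- the relation
  let X : Option ι → Ext K := fun b => match b with
    | none => ⟨F⟩
    | some i => ⟨F' i⟩
  let co : Option ι → ℤ := fun b => match b with
    | none => N
    | some i => - n i
  obtain ⟨L, _, _, _, _, f, m, J, _, M, e, hm, -, hM, hrel⟩ := exists_rel (K := K)
    (fun b => (X b).F) co (by
      intro φ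
      rw [Fintype.sum_option]
      have h2 : co none * (Nat.card {τ : (X none).F →+* ℝ //
          τ.comp (algebraMap K (X none).F) = φ} : ℤ) = N * realPlaces F φ := rfl
      have h3 : ∑ i, co (some i) * (Nat.card {τ : (X (some i)).F →+* ℝ //
          τ.comp (algebraMap K (X (some i)).F) = φ} : ℤ) = - ∑ i, n i * realPlaces (F' i) φ := by
        rw [← Finset.sum_neg_distrib]
        refine Finset.sum_congr rfl fun i _ => ?_
        change (- n i) * (realPlaces (F' i) φ : ℤ) = _
        rw [neg_mul]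
      rw [h2, h3, hn φ, add_neg_cancel])
  refine ⟨L, inferInstance, inferInstance, inferInstance, Finset.univ.image M, m * N,
    mul_ne_zero hm hN, ?_, ?_⟩
  · intro M' hM'
    obtain ⟨j, -, rfl⟩ := Finset.mem_image.1 hM'
    exact hM j
  intro A hA U hU hK hMR Λ hΛ
  let Z : Option ι ⊕ J → Ext K := fun i => match i with
    | Sum.inl i => X i
    | Sum.inr j => ⟨M j⟩
  let fZ : ∀ i, (Z i).F →ₐ[K] L := fun i => match i with
    | Sum.inl i => f i
    | Sum.inr j => (M j).val
  let eZ : Option ι ⊕ J → ℤ := fun i => match i with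
    | Sum.inl i => m * co i
    | Sum.inr j => - e j
  have hrelZ : ∀ g : Gal(L/K), ∑ i, eZ i * fx (fZ i).fieldRange.fixingSubgroup g = 0 := by
    intro g
    rw [Fintype.sum_sum_type]
    have h1 : ∑ i, eZ (Sum.inl i) * fx (fZ (Sum.inl i)).fieldRange.fixingSubgroup g =
        m * ∑ i, co i * fx (f i).fieldRange.fixingSubgroup g := by
      rw [Finset.mul_sum]
      refine Finset.sum_congr rfl fun i _ => ?_
      change (m * co i) * _ = _
      rw [mul_assoc]
    have h2 : ∑ j, eZ (Sum.inr j) * fx (fZ (Sum.inr j)).fieldRange.fixingSubgroup g =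
        - ∑ j, e j * fx (M j).fixingSubgroup g := by
      rw [← Finset.sum_neg_distrib]
      refine Finset.sum_congr rfl fun j _ => ?_
      change (- e j) * fx ((M j).val).fieldRange.fixingSubgroup g = _
      rw [IntermediateField.fieldRange_val, neg_mul]
    rw [h1, h2, hrel g, add_neg_cancel]
  have hMR' : ∀ j, RationalCentralValue (A.map (algebraMap K (M j))) U := fun j =>
    hMR _ (Finset.mem_image_of_mem M (Finset.mem_univ j))
  -- continuations
  have hcont : ∀ i : Option ι ⊕ J, ∃ Λi : ℂ → ℂ,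
      IsContinuation (A.map (algebraMap K (Z i).F)) U Λi ∧ (i = Sum.inl none → Λi = Λ) := by
    rintro ((_ | i) | j)
    · exact ⟨Λ, hΛ, fun _ => rfl⟩
    · obtain ⟨Λ0, hΛ0⟩ := (hK i).1
      exact ⟨Λ0, hΛ0, fun h => by simp at h⟩
    · obtain ⟨Λ0, hΛ0⟩ := (hMR' j).1
      exact ⟨Λ0, hΛ0, fun h => by simp at h⟩
  choose ΛZ hΛZ hΛF using hcont
  have hF : ΛZ (Sum.inl none) = Λ := hΛF _ rfl
  have hrcv : ∀ i : Option ι ⊕ J, i ≠ Sum.inl none →
      RationalCentralValue (A.map (algebraMap K (Z i).F)) U := by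
    rintro ((_ | i) | j) hi
    · exact absurd rfl hi
    · exact hK i
    · exact hMR' j
  choose hmer hana V hV hL using hΛZ
  have hL' : ∀ i (s : ℂ), 3 / 2 < s.re → ΛZ i s = LL (V i) s := fun i s hs => by
    rw [hL i s hs, lseries_eq]
  have hne0 : ∀ i, i ≠ Sum.inl none → ΛZ i 1 ≠ 0 := fun i hi =>
    ((hrcv i hi).2 _ ⟨hmer i, hana i, V i, hV i, hL i⟩).1
  -- the orders
  have hord : ∀ i, ∃ k : ℤ, meromorphicOrderAt (ΛZ i) 1 = k := by
    intro i
    have h3 : meromorphicOrderAt (ΛZ i) 1 ≠ ⊤ := Pool.Agent.R333.BR.order_ne_top hU.1 hU.2.1 hU.2.2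
      (hmer i) fun s hs => by
        rw [hL' i s hs]
        exact LL_ne_zero inferInstance (hV i) hs
    obtain ⟨k, hk⟩ := WithTop.ne_top_iff_exists.1 h3
    exact ⟨k, hk.symm⟩
  choose k hk using hord
  have hk0 : ∀ i, i ≠ Sum.inl none → k i = 0 := by
    intro i hi
    have h1 := hk i
    rw [(hana i).meromorphicOrderAt_eq, (hana i).analyticOrderAt_eq_zero.2 (hne0 i hi)] at h1
    exact (WithTop.coe_injective h1).symm
  have hsum := ord_rel0 hU.1 hU.2.1 hU.2.2 Z fZ eZ hrelZ A hA V hV hmer hL' k hk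
  have hkF : k (Sum.inl none) = 0 := by
    rw [Finset.sum_eq_single (Sum.inl none) (fun i _ hi => by rw [hk0 i hi, mul_zero])
      (fun h => absurd (Finset.mem_univ _) h)] at hsum
    have h1 : (m : ℤ) * (N : ℤ) * k (Sum.inl none) = 0 := hsum
    exact (mul_eq_zero.1 h1).resolve_left (by exact_mod_cast mul_ne_zero hm hN)
  have hneF : Λ 1 ≠ 0 := by
    intro h0
    have h1 := hk (Sum.inl none)
    rw [hkF, hF] at h1
    have h2 : AnalyticAt ℂ Λ 1 := hF ▸ hana (Sum.inl none)
    have h3 : analyticOrderAt Λ 1 = 0 := by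
      by_contra h4
      rw [h2.meromorphicOrderAt_eq] at h1
      cases h5 : analyticOrderAt Λ 1 with
      | top =>
        rw [h5] at h1
        exact absurd h1 (by simp)
      | coe a =>
        rw [h5] at h1 h4
        have h6 : ((a : ℤ) : WithTop ℤ) = ((0 : ℤ) : WithTop ℤ) := h1
        have h7 : (a : ℤ) = 0 := WithTop.coe_injective h6
        apply h4
        have h8 : a = 0 := by exact_mod_cast h7
        rw [h8]
        rfl
    exact (h2.analyticOrderAt_eq_zero.1 h3) h0
  refine ⟨hneF, fun P hP => ?_⟩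
  have hneZ : ∀ i, ΛZ i 1 ≠ 0 := by
    intro i
    by_cases hi : i = Sum.inl none
    · rw [hi, hF]
      exact hneF
    · exact hne0 i hi
  obtain ⟨q, hq0, hq⟩ := val_fam Z fZ eZ hA hrelZ hU.1 hU.2.1 hU.2.2 V hV ΛZ hmer hana hneZ hL'
  obtain ⟨c, hP0, hc0, hPc, hper⟩ := period_ext hP
  obtain ⟨ρ, hρ⟩ := om_fam Z fZ eZ hrelZ hP0 hc0
  have hr : ∀ i : Option ι ⊕ J, ∃ r : ℚ, i ≠ Sum.inl none → ΛZ i 1 = r * (om P c (Z i).F : ℝ) := by
    intro i
    by_cases hi : i = Sum.inl none
    · exact ⟨0, fun h => absurd hi h⟩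
    · obtain ⟨r, hr⟩ := ((hrcv i hi).2 _ ⟨hmer i, hana i, V i, hV i, hL i⟩).2 _ (hper (Z i).F)
      exact ⟨r, fun _ => hr⟩
  choose r hr using hr
  refine ⟨om P c F, hper F, ?_⟩
  have homF : ((om P c F : ℝ) : ℂ) ≠ 0 := by exact_mod_cast om_ne hP0 hc0 F
  -- the quotients
  have homZ : ∀ i, ((om P c (Z i).F : ℝ) : ℂ) ≠ 0 := fun i => by
    exact_mod_cast om_ne hP0 hc0 (Z i).F
  have h1 : ∏ i, (ΛZ i 1 / ((om P c (Z i).F : ℝ) : ℂ)) ^ eZ i = (q : ℂ) / (ρ : ℂ) := by
    simp_rw [div_zpow]
    rw [Finset.prod_div_distrib, hq]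
    congr 1
    have h2 := congrArg (fun x : ℝ => (x : ℂ)) hρ
    push_cast at h2
    exact h2
  have h3 : ∏ i ∈ Finset.univ.erase (Sum.inl none), (ΛZ i 1 / ((om P c (Z i).F : ℝ) : ℂ)) ^ eZ i =
      ((∏ i ∈ Finset.univ.erase (Sum.inl none), r i ^ eZ i : ℚ) : ℂ) := by
    push_cast
    refine Finset.prod_congr rfl fun i hi => ?_
    rw [hr i (Finset.ne_of_mem_erase hi), mul_div_assoc, div_self (homZ i), mul_one]
  rw [← Finset.mul_prod_erase Finset.univ _ (Finset.mem_univ (Sum.inl none)), h3] at h1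
  have h4 : (ΛZ (Sum.inl none) 1 / ((om P c (Z (Sum.inl none)).F : ℝ) : ℂ)) ^ eZ (Sum.inl none) =
      (Λ 1 / ((om P c F : ℝ) : ℂ)) ^ (m * N) := by
    have h5 : eZ (Sum.inl none) = ((m * N : ℕ) : ℤ) := by
      change (m : ℤ) * (N : ℤ) = _
      rw [Nat.cast_mul]
    rw [h5, zpow_natCast, hF]
  rw [h4] at h1
  set w : ℚ := ∏ i ∈ Finset.univ.erase (Sum.inl none), r i ^ eZ i with hw
  have hw0 : w ≠ 0 := by
    intro h0
    rw [h0, Rat.cast_zero, mul_zero] at h1
    have hρ0 : (ρ : ℂ) ≠ 0 := by
      intro h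
      have h6 : (ρ : ℚ) = 0 := by exact_mod_cast h
      rw [h6, Rat.cast_zero] at hρ
      exact (Finset.prod_ne_zero_iff.2 fun i _ => zpow_ne_zero (eZ i) (om_ne hP0 hc0 (Z i).F)) hρ
    have hq0' : (q : ℂ) ≠ 0 := by exact_mod_cast hq0
    exact (div_ne_zero hq0' hρ0) h1.symm
  refine ⟨q / ρ / w, ?_⟩
  have hw0' : (w : ℂ) ≠ 0 := by exact_mod_cast hw0
  rw [div_pow] at h1
  push_cast
  rw [← h1]
  field_simp

end Pool.Agent.Results.MP_90f827_nt.TotallyComplexFields
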